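import Pool.Agent.MP_16ecd2_an.H44.AbsF
import Pool.Agent.MP_16ecd2_an.H44.Low
import Pool.Agent.MP_16ecd2_an.H78.Gauss

/-!
Equidistribution of saddle connection directions along an `SL(2, ℝ)`-orbit is equivalent to a
statement about the counting function alone.
-/

namespace Pool.Agent.Results.MP_16ecd2_an.CountingCriterion

open Set Filter Topology Real MeasureTheory Pool.Agent.MP_16ecd2_an Pool.Agent.MP_16ecd2_an.H44

theorem lift {g : ℂ →ₗ[ℝ] ℂ} (hg : LinearMap.det g = 1) :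
    ∃ G : ℂ ≃L[ℝ] ℂ, (G : ℂ →ₗ[ℝ] ℂ) = g :=
  ⟨(g.equivOfDetNeZero (hg.trans_ne one_ne_zero)).toContinuousLinearEquiv, by ext; simp⟩

theorem cnt_act {E : Type} [Fintype E] (X : Surf E) (g : ℂ →ₗ[ℝ] ℂ) (hg : LinearMap.det g = 1) :
    (X.act g hg).cnt = El X.mu g := by
  obtain ⟨G, rfl⟩ := lift hg
  funext R
  rw [← Surf.N_mu, ← X.mu_act G hg, N,
    map_measureReal_apply G.continuous.measurable Metric.isClosed_closedBall.measurableSet, El]
  congr 1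
  ext z
  simp

theorem result {E : Type} [Fintype E] [Nonempty E] (X : Surf E) :
    List.TFAE
      [∀ (g : ℂ →ₗ[ℝ] ℂ) (hg : LinearMap.det g = 1), (X.act g hg).Equi,
       X.Equi ∧ ∃ (g : ℂ →ₗ[ℝ] ℂ) (hg : LinearMap.det g = 1),
         (∃ z, ‖g z‖ ≠ ‖z‖) ∧ (X.act g hg).Equi,
       ∀ f : ℂ → ℝ, Continuous f → HasCompactSupport f →
         Tendsto (fun R : ℝ => (∑ᶠ c ∈ X.SC, f (R⁻¹ • c.2)) / X.cnt R) atTop
           (𝓝 (π⁻¹ * ∫ z, f z)),
       ∀ (g : ℂ →ₗ[ℝ] ℂ) (hg : LinearMap.det g = 1) (a : ℝ), 0 < a →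
         Tendsto (fun R => (X.act g hg).cnt (a * R) / X.cnt R) atTop (𝓝 (a ^ 2)),
       ∃ (g : ℂ →ₗ[ℝ] ℂ) (hg : LinearMap.det g = 1), (∃ z, ‖g z‖ ≠ ‖z‖) ∧
         ∀ (h : ℂ →ₗ[ℝ] ℂ) (hh : LinearMap.det h = 1),
           Tendsto (fun R => ((X.act h hh).act g hg).cnt R / (X.act h hh).cnt R) atTop (𝓝 1)] := by
  have pos := N_pos X.mu X.mu_ne
  have pl : Pl X.mu (N X.mu) ↔ ∀ f : ℂ → ℝ, Continuous f → HasCompactSupport f →
      Tendsto (fun R : ℝ => (∑ᶠ c ∈ X.SC, f (R⁻¹ • c.2)) / X.cnt R) atTop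
        (𝓝 (π⁻¹ * ∫ z, f z)) := by
    refine forall₃_congr fun f _ f2 => tendsto_congr' ?_
    filter_upwards [eventually_gt_atTop 0] with R hR
    rw [X.int_mu f2 hR, X.N_mu]
  have d2 : LinearMap.det (su (5 / 4 : ℝ) (3 / 4 : ℝ)) = 1 := by
    rw [det_su, Complex.norm_real, Complex.norm_real]
    norm_num
  have n2 : ∃ z, ‖su (5 / 4 : ℝ) (3 / 4 : ℝ) z‖ ≠ ‖z‖ := ⟨1, by
    rw [su_apply, map_one, mul_one, mul_one, ← Complex.ofReal_add, Complex.norm_real]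
    norm_num⟩
  tfae_have 1 → 2 := fun H => ⟨H LinearMap.id (by simp), _, d2, n2, H _ d2⟩
  tfae_have 2 → 3 := by
    rintro ⟨H, g, hg, hn, H'⟩
    obtain ⟨G, rfl⟩ := lift hg
    rw [Surf.equi_iff] at H H'
    rw [← X.mu_act G hg] at H'
    exact pl.1 (pl_of_dir X.mu_zero X.mu_ne H (reg_of_dir X.mu_ne (map_vol G hg) H H' hn))
  tfae_have 3 → 1 := by
    intro H g hg
    obtain ⟨G, rfl⟩ := lift hg
    rw [Surf.equi_iff, ← X.mu_act G hg]
    exact ((pl.2 H).map G (map_vol G hg)).dir pos (N_nonneg _)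
  tfae_have 3 → 4 := by
    intro H g hg a ha
    obtain ⟨G, rfl⟩ := lift hg
    rw [← Surf.N_mu, ← Surf.N_mu, ← X.mu_act G hg]
    exact ((pl.2 H).map G (map_vol G hg)).count (N_nonneg _) ha.le
  tfae_have 4 → 3 := fun H => pl.1 (H78.pl_of_count X.mu X.mu_ne X.mu_neg fun g hg a ha => by
    simpa only [cnt_act, ← Surf.N_mu X, El] using H g hg a ha)
  tfae_have 4 → 5 := by
    refine fun H => ⟨_, d2, n2, fun h hh => ?_⟩
    have := (H (su (5 / 4 : ℝ) (3 / 4 : ℝ) ∘ₗ h) (by rw [LinearMap.det_comp, d2, hh, one_mul]) 1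
      one_pos).div (H h hh 1 one_pos) (by simp)
    simp only [one_pow, div_one, one_mul] at this
    refine this.congr' ?_
    filter_upwards [pos] with R hR
    rw [X.N_mu] at hR
    exact div_div_div_cancel_right₀ hR.ne' _ _
  tfae_have 5 → 4 := by
    rintro ⟨g₀, hg₀, hn, H⟩ g hg a ha
    have S : Sam X.mu := Gd.all (g := g₀) ⟨hg₀, fun h hh => by
      rw [← cnt_act X h hh, ← cnt_act X (g₀ ∘ₗ h) (by rw [LinearMap.det_comp, hg₀, hh, one_mul])]
      exact Asymptotics.isEquivalent_of_tendsto_one (H h hh)⟩ hn (pos.mono fun _ h => h.ne')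
    obtain ⟨c, hc, hl⟩ := X.cnt_lower
    have t : Tendsto (fun R : ℝ => a * R) atTop atTop := tendsto_id.const_mul_atTop ha
    have := ((S g hg).comp t).mul (S.reg X.mu_ne hc (by rwa [X.N_mu]) a ha)
    rw [one_mul] at this
    rw [cnt_act, ← X.N_mu]
    refine this.congr' ?_
    filter_upwards [t.eventually pos] with R hR
    exact div_mul_div_cancel₀ hR.ne'
  tfae_finish

end Pool.Agent.Results.MP_16ecd2_an.CountingCriterion
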