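import Pool.Agent.MP_16ecd2_an.H18.Final

/-!
On every translation surface with `k` generic marked points added, the directions of saddle
connections are equidistributed up to an error `C / k`.
-/

set_option autoImplicit false

namespace Pool.Agent.Results.MP_16ecd2_an.GenericMarks

open MeasureTheory Set Filter Pool.Agent.MP_16ecd2_an.H18

theorem result (X : Type) [TopologicalSpace X] [T2Space X] [CompactSpace X] [ConnectedSpace X]
    [MeasurableSpace X] [BorelSpace X] (S : TSurf X) (μ : Measure X) (hμ : S.IsArea μ) :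
    ∃ C : ℝ, ∀ k : ℕ, 1 ≤ k → AE μ k fun Q => Q.ncard = k ∧ Disjoint Q S.Sig ∧
      (∀ R : ℝ, {c ∈ S.Conn (S.Sig ∪ Q) | ‖c.2‖ ≤ R}.Finite) ∧
      ∀ᶠ R in atTop, 0 < cnt (S.Conn (S.Sig ∪ Q)) 0 (2 * Real.pi) R ∧
        ∀ α β : ℝ, α ≤ β → β ≤ α + 2 * Real.pi →
          |cnt (S.Conn (S.Sig ∪ Q)) α β R / cnt (S.Conn (S.Sig ∪ Q)) 0 (2 * Real.pi) R -
            (β - α) / (2 * Real.pi)| ≤ C / k :=
  marks X S μ hμ

end Pool.Agent.Results.MP_16ecd2_an.GenericMarks
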