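import Pool.Agent.MP_16ecd2_an.H18.Final

/-!
On every translation surface, the straight segments from almost every point to a given singular
point have exact quadratic asymptotics in every sector, with a power saving.
-/

set_option autoImplicit false

namespace Pool.Agent.Results.MP_16ecd2_an.MarkedPointCount

open MeasureTheory Set Pool.Agent.MP_16ecd2_an.H18

theorem result (X : Type) [TopologicalSpace X] [T2Space X] [CompactSpace X] [ConnectedSpace X]
    [MeasurableSpace X] [BorelSpace X] (S : TSurf X) (μ : Measure X) (hμ : S.IsArea μ) :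
    0 < (μ univ).toReal ∧ ∀ σ ∈ S.Sig, ∃ κ : ℝ, 0 < κ ∧ ∀ᵐ q ∂μ,
      (∀ R : ℝ, {c ∈ S.Seg q σ | ‖c.2‖ ≤ R}.Finite) ∧ ∃ C : ℝ, ∀ R α β : ℝ, 1 ≤ R → α ≤ β →
        β ≤ α + 2 * Real.pi → |cnt (S.Seg q σ) α β R -
          S.ord σ * (β - α) * R ^ 2 / (2 * (μ univ).toReal)| ≤ C * R ^ (2 - κ) :=
  rpqx X S μ hμ

end Pool.Agent.Results.MP_16ecd2_an.MarkedPointCount
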